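import Pool.Agent.H25.CBase

set_option autoImplicit false

namespace Pool.Agent.Results.MP_3853ed_lc.NPHard
open Pool.Agent.H11.PT Pool.Agent.H25.CB

/-- `Z` arises from the partition `Y` by replacing two distinct classes by their union -/
def Join {N : ℕ} (Y Z : Setoid (Fin N)) : Prop :=
  ∃ a b, ¬ Y a b ∧ ∀ u v, Z u v ↔ Y u v ∨ (Y u a ∧ Y v b) ∨ (Y u b ∧ Y v a)

/-- least number of joins and splits turning `X` into `Y` -/
noncomputable def d {N : ℕ} (X Y : Setoid (Fin N)) : ℕ := (SimpleGraph.fromRel Join).dist X Y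

/-- the partition of `0, …, N-1` whose classes are the points with equal label -/
def part (N : ℕ) (l : List ℕ) : Setoid (Fin N) := Setoid.ker fun v => l.getD v 0

/-- PARTITION MEDIAN: some partition has total distance at most `B` to the given ones -/
def Median (y : ℕ × List (List ℕ) × ℕ) : Prop :=
  ∃ Y : Setoid (Fin y.1), (y.2.1.map fun l => d (part y.1 l) Y).sum ≤ y.2.2

variable {N : ℕ}

noncomputable def nc (Y : Setoid (Fin N)) : ℕ := Nat.card (Quotient Y)

theorem nc_ker {β : Type} [DecidableEq β] (f : Fin N → β) :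
    nc (Setoid.ker f) = (Finset.univ.image f).card := by
  rw [nc, Nat.card_congr (Setoid.quotientKerEquivRange f), Nat.card_coe_set_eq,
    ← Set.ncard_coe_finset]
  simp

theorem nc_le {Y Z : Setoid (Fin N)} (h : Y ≤ Z) : nc Z ≤ nc Y :=
  Nat.card_le_card_of_surjective (Quotient.map' id fun _ _ e => h e) fun q => by
    obtain ⟨a, rfl⟩ := Quotient.exists_rep q
    exact ⟨⟦a⟧, rfl⟩

theorem Join.le {Y Z : Setoid (Fin N)} (h : Join Y Z) : Y ≤ Z := fun u v e => by
  obtain ⟨a, b, -, h⟩ := h
  exact (h u v).2 (.inl e)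

theorem Join.nc {Y Z : Setoid (Fin N)} (h : Join Y Z) : nc Y = nc Z + 1 := by
  classical
  have hl := h.le
  obtain ⟨a, b, h1, h⟩ := h
  rw [NPHard.nc, NPHard.nc, Nat.card_congr (Equiv.optionSubtypeNe (⟦b⟧ : Quotient Y)).symm,
    Finite.card_option, Nat.card_eq_of_bijective
      (fun q : {q : Quotient Y // q ≠ ⟦b⟧} => (Quotient.map' id (fun _ _ e => hl e) q.1 : Quotient Z))]
  constructor
  · rintro ⟨p, hp⟩ ⟨q, hq⟩ e
    obtain ⟨u, rfl⟩ := Quotient.exists_rep p
    obtain ⟨v, rfl⟩ := Quotient.exists_rep q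
    rcases (h u v).1 (Quotient.exact e) with e | e | e
    · exact Subtype.ext (Quotient.sound e)
    · exact absurd (Quotient.sound e.2) hq
    · exact absurd (Quotient.sound e.1) hp
  · intro q
    obtain ⟨u, rfl⟩ := Quotient.exists_rep q
    by_cases e : Y u b
    · exact ⟨⟨⟦a⟧, fun e => h1 (Quotient.exact e)⟩,
        Quotient.sound ((h a u).2 (.inr (.inl ⟨Y.refl' a, e⟩)))⟩
    · exact ⟨⟨⟦u⟧, fun e' => e (Quotient.exact e')⟩, rfl⟩

theorem Join.adj {Y Z : Setoid (Fin N)} (h : Join Y Z) : (SimpleGraph.fromRel Join).Adj Y Z :=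
  (SimpleGraph.fromRel_adj ..).2 ⟨fun e => by have := h.nc; rw [e] at this; omega, .inl h⟩

theorem up (X : Setoid (Fin N)) (n : ℕ) : ∀ Y ≤ X, nc Y = n →
    ∃ p : (SimpleGraph.fromRel Join).Walk Y X, p.length + nc X = n := by
  induction n using Nat.strong_induction_on with | _ n ih => ?_
  intro Y h e
  by_cases h1 : X ≤ Y
  · obtain rfl := le_antisymm h h1
    exact ⟨.nil, by simpa using e⟩
  obtain ⟨a, b, h2, h3⟩ : ∃ a b, X a b ∧ ¬ Y a b := by
    by_contra! h2
    exact h1 fun a b => h2 a b
  have s := @Y.symm'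
  have t := @Y.trans'
  let Z : Setoid (Fin N) := ⟨fun u v => Y u v ∨ (Y u a ∧ Y v b) ∨ (Y u b ∧ Y v a),
    fun u => .inl (Y.refl' u), fun e => by grind, fun e e' => by grind⟩
  have j : Join Y Z := ⟨a, b, h3, fun _ _ => Iff.rfl⟩
  obtain ⟨p, hp⟩ := ih (nc Z) (by have := j.nc; omega) Z (fun u v e => by
    rcases e with e | e | e
    · exact h e
    · exact X.trans' (h e.1) (X.trans' h2 (X.symm' (h e.2)))
    · exact X.trans' (h e.1) (X.trans' (X.symm' h2) (X.symm' (h e.2)))) rfl
  exact ⟨.cons j.adj p, by have := j.nc; simp only [SimpleGraph.Walk.length_cons]; omega⟩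

theorem d_le {X Y : Setoid (Fin N)} (h : Y ≤ X) : d Y X + nc X ≤ nc Y ∧ d X Y + nc X ≤ nc Y := by
  obtain ⟨p, hp⟩ := up X _ Y h rfl
  have := SimpleGraph.dist_le p
  rw [d, d, SimpleGraph.dist_comm (u := X)]
  omega

theorem conn : (SimpleGraph.fromRel (Join (N := N))).Connected :=
  ⟨fun X Y => (up ⊤ _ X le_top rfl).choose.reachable.trans
    (up ⊤ _ Y le_top rfl).choose.reachable.symm⟩

theorem pot (Φ : Setoid (Fin N) → ℤ) (h : ∀ Y Z, Join Y Z → Φ Y ≤ Φ Z + 1 ∧ Φ Z ≤ Φ Y + 1)
    (X Y : Setoid (Fin N)) : Φ Y ≤ Φ X + d X Y := by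
  obtain ⟨p, hp⟩ := conn.exists_walk_length_eq_dist X Y
  rw [d, ← hp]
  clear hp
  induction p with
  | nil => simp
  | cons a p ih =>
    rcases ((SimpleGraph.fromRel_adj ..).1 a).2 with e | e <;> have := h _ _ e <;>
      simp only [SimpleGraph.Walk.length_cons] <;> omega

open Classical in
theorem le_d (X Y : Setoid (Fin N)) : nc Y + (if Y ≤ X then 0 else 2) ≤ nc X + d X Y ∧
    nc X ≤ nc Y + d X Y := by
  have h1 := pot (fun Z => nc Z + if Z ≤ X then 0 else 2) (fun Y Z j => by
    have := j.nc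
    have := j.le.trans (c := X)
    split_ifs <;> first | omega | tauto) X Y
  have h2 := pot (fun Z => -nc Z) (fun Y Z j => by have := j.nc; omega) X Y
  simp only [le_refl, if_true] at h1
  split_ifs at h1 ⊢ <;> omega

abbrev I3 := ℕ × List (ℕ × ℕ) × ℕ
def NN (y : I3) : ℕ := y.1 + 1 + y.2.1.length
def inA (y : I3) (i v : ℕ) : Bool := decide (v = i + 1 ∨ (y.1 < v ∧
  ((y.2.1.getD (v - y.1 - 1) (0, 0)).1 = i ∨ (y.2.1.getD (v - y.1 - 1) (0, 0)).2 = i)))
def cut (y : I3) (i : ℕ) : List ℕ := (List.range (NN y)).map fun v => bif inA y i v then 1 else 0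
def red (y : I3) : ℕ × List (List ℕ) × ℕ :=
  (NN y, List.replicate (NN y) 0 :: (List.replicate y.1 (List.range (NN y)) ++
    (List.range y.1).map (cut y)), y.1 * NN y - y.2.2)

theorem red_pt : PT red := by unfold red cut inA NN; fun_prop

theorem p_top : part N (List.replicate N 0) = ⊤ := by
  ext u v; rw [part, Setoid.ker_def]; simp

theorem p_bot : part N (List.range N) = ⊥ := by
  ext u v; rw [part, Setoid.ker_def]; simp [Fin.ext_iff]

theorem nc_bot : nc (⊥ : Setoid (Fin N)) = N := by
  rw [← (Setoid.injective_iff_ker_bot id).1 Function.injective_id, nc_ker]; simp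

theorem p_cut (y : I3) (i : ℕ) : part (NN y) (cut y i) = Setoid.ker fun v : Fin (NN y) => inA y i v := by
  ext u v
  rw [part, Setoid.ker_def, Setoid.ker_def, cut]
  rw [List.getD_eq_getElem _ _ (by simp), List.getD_eq_getElem _ _ (by simp)]
  simp only [List.getElem_map, List.getElem_range]
  cases inA y i u <;> cases inA y i v <;> simp

theorem nc_cut (y : I3) {i : ℕ} (hi : i < y.1) : nc (part (NN y) (cut y i)) = 2 := by
  rw [p_cut, nc_ker, Finset.eq_univ_of_forall (s := Finset.image _ _) fun b => ?_]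
  · rfl
  cases b
  · exact Finset.mem_image.2 ⟨⟨0, by unfold NN; omega⟩, by simp, by simp [inA]⟩
  · exact Finset.mem_image.2 ⟨⟨i + 1, by unfold NN; omega⟩, by simp, by simp [inA]⟩

theorem nc_top (y : I3) : nc (⊤ : Setoid (Fin (NN y))) = 1 := by
  have : (⊤ : Setoid (Fin (NN y))) = Setoid.ker fun _ => () := by ext; simp [Setoid.ker_def]
  rw [this, nc_ker, Finset.image_const ⟨⟨0, by unfold NN; omega⟩, by simp⟩]
  rfl

open Classical in
theorem total (y : I3) (Y : Setoid (Fin (NN y))) :
    ((red y).2.1.map fun l => d (part (NN y) l) Y).sum + 1 +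
      2 * ((Finset.range y.1).filter fun i => Y ≤ part (NN y) (cut y i)).card = y.1 * NN y + nc Y := by
  have h1 := le_d ⊤ Y
  have h2 := le_d ⊥ Y
  have h3 := d_le (X := ⊤) (Y := Y) le_top
  have h4 := d_le (X := Y) (Y := ⊥) bot_le
  have h5 : ∀ i ∈ Finset.range y.1, d (part (NN y) (cut y i)) Y +
      2 * (if Y ≤ part (NN y) (cut y i) then 1 else 0) = nc Y := fun i hi => by
    have a1 := nc_cut y (Finset.mem_range.1 hi)
    have a2 := le_d (part (NN y) (cut y i)) Y
    have a3 := d_le (X := ⊤) (Y := part (NN y) (cut y i)) le_top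
    have a4 : d (part (NN y) (cut y i)) Y ≤ d _ ⊤ + d ⊤ Y := conn.dist_triangle
    rw [nc_top] at a3 h3
    split_ifs at a2 ⊢ with e
    · have := d_le e
      omega
    · omega
  have h6 := Finset.sum_congr rfl h5
  rw [Finset.sum_add_distrib, ← Finset.mul_sum, ← Finset.card_filter, Finset.sum_const,
    Finset.card_range, smul_eq_mul] at h6
  simp only [red, List.map_cons, List.map_append, List.sum_cons, List.sum_append, List.map_replicate,
    List.sum_replicate, p_top, p_bot, List.map_map, smul_eq_mul, le_top, if_true] at h1 ⊢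
  rw [nc_top] at h1 h3
  rw [nc_bot] at h2 h4
  have h7 := congrArg (y.1 * ·) (show d ⊥ Y + nc Y = NN y by omega)
  rw [← List.sum_toFinset _ List.nodup_range, List.toFinset_range]
  simp only [Function.comp, mul_add] at h7 ⊢
  omega

theorem result : NPHard Median := by
  classical
  suffices HardFor InNP (fun _ => True) Median by simpa using this.npHard
  refine hard_IS.red red red_pt fun y ⟨v1, v2⟩ => ⟨trivial, ?_, ?_⟩
  · rintro ⟨I, h1, h2, h3⟩
    let f : Fin (NN y) → Finset ℕ := fun v => I.filter fun i => inA y i v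
    refine ⟨Setoid.ker f, ?_⟩
    have a1 := total y (Setoid.ker f)
    have a2 := Finset.card_le_card (s := I) (t := (Finset.range y.1).filter fun i =>
      Setoid.ker f ≤ part (NN y) (cut y i)) fun i hi => Finset.mem_filter.2
        ⟨Finset.mem_range.2 (h1 i hi), fun u v e => by
          have := congrArg (i ∈ ·) (show f u = f v from e)
          rw [p_cut]
          exact Bool.eq_iff_iff.2 (by simpa [f, hi] using this)⟩
    have a3 : nc (Setoid.ker f) ≤ I.card + 1 := by
      rw [nc_ker]
      refine (Finset.card_le_card (t := insert ∅ (I.image fun i => {i})) fun s hs => ?_).trans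
        ((Finset.card_insert_le _ _).trans (Nat.succ_le_succ Finset.card_image_le))
      obtain ⟨v, -, rfl⟩ := Finset.mem_image.1 hs
      rcases (f v).eq_empty_or_nonempty with e | ⟨i, hi⟩
      · simp [e]
      refine Finset.mem_insert_of_mem (Finset.mem_image.2 ⟨i, (Finset.mem_filter.1 hi).1,
        (Finset.eq_singleton_iff_unique_mem.2 ⟨hi, fun j hj => ?_⟩).symm⟩)
      simp only [f, Finset.mem_filter, inA, decide_eq_true_eq] at hi hj
      have b1 := h1 i hi.1
      have b2 := h1 j hj.1
      by_cases e : y.1 < v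
      · have b3 : v - y.1 - 1 < y.2.1.length := by have := v.2; unfold NN at this; omega
        have b4 := h3 _ (List.getElem_mem b3)
        rw [List.getD_eq_getElem _ _ b3] at hi hj
        grind
      · omega
    simp only [red] at a1 ⊢
    omega
  · rintro ⟨Y : Setoid (Fin (NN y)), hY⟩
    have a1 := total y Y
    set I := (Finset.range y.1).filter fun i => Y ≤ part (NN y) (cut y i)
    have h1 : ∀ i ∈ I, i < y.1 := fun i hi => Finset.mem_range.1 (Finset.mem_filter.1 hi).1
    let R := I.filter fun r => ∃ e ∈ y.2.1, e.1 ∈ I ∧ e.2 = r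
    let f : Fin (NN y) → Finset ℕ := fun v => I.filter fun i => inA y i v
    have a2 := nc_le (Y := Y) (Z := Setoid.ker fun v => ((f v).card, (f v).sup id)) fun u v e => by
      have : f u = f v := Finset.filter_congr fun i hi => by
        have := (Finset.mem_filter.1 hi).2 e
        rw [p_cut] at this
        rw [show inA y i u = inA y i v from this]
      simp [Setoid.ker_def, this]
    rw [nc_ker] at a2
    have a3 := le_trans' a2 <| Finset.card_le_card
      (s := {0} ×ˢ {0} ∪ ({1} ×ˢ I ∪ {2} ×ˢ R)) fun ⟨c, r⟩ h => by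
      simp only [Finset.mem_union, Finset.mem_product, Finset.mem_singleton] at h
      rcases h with ⟨rfl, rfl⟩ | ⟨rfl, h⟩ | ⟨rfl, h⟩
      · refine Finset.mem_image.2 ⟨⟨0, by unfold NN; omega⟩, by simp, ?_⟩
        simp [f, inA]
      · have := h1 r h
        refine Finset.mem_image.2 ⟨⟨r + 1, by unfold NN; omega⟩, by simp, ?_⟩
        rw [show f _ = {r} from Finset.ext fun i => by simp [f, inA]; grind]
        simp
      · obtain ⟨h, e, e1, e2, rfl⟩ := Finset.mem_filter.1 h
        obtain ⟨j, hj, rfl⟩ := List.getElem_of_mem e1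
        have := v2 _ e1
        refine Finset.mem_image.2 ⟨⟨y.1 + 1 + j, by unfold NN; omega⟩, by simp, ?_⟩
        rw [show f _ = {y.2.1[j].1, y.2.1[j].2} from Finset.ext fun i => by
          have := h1 i
          simp only [f, inA, Finset.mem_filter, show y.1 + 1 + j - y.1 - 1 = j by omega,
            List.getD_eq_getElem _ _ hj, decide_eq_true_eq, Finset.mem_insert, Finset.mem_singleton]
          grind, Finset.card_pair this.1.ne]
        simp [this.1.le]
    rw [Finset.card_union_of_disjoint (by simp [Finset.disjoint_left]),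
      Finset.card_union_of_disjoint (by simp [Finset.disjoint_left])] at a3
    simp only [Finset.card_product, Finset.card_singleton] at a3
    have a4 : (I \ R).card + R.card = I.card :=
      Finset.card_sdiff_add_card_eq_card (Finset.filter_subset _ I)
    have a5 : y.1 ≤ y.1 * NN y := Nat.le_mul_of_pos_right _ (by unfold NN; omega)
    refine ⟨I \ R, fun v hv => h1 v (Finset.mem_sdiff.1 hv).1, ?_, fun e he ⟨b1, b2⟩ => ?_⟩
    · change _ ≤ y.1 * NN y - y.2.2 at hY
      change ((red y).2.1.map fun l => d (part (NN y) l) Y).sum ≤ _ at hY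
      omega
    · rw [Finset.mem_sdiff] at b1 b2
      exact b2.2 (Finset.mem_filter.2 ⟨b2.1, e, he, b1.1, rfl⟩)

end Pool.Agent.Results.MP_3853ed_lc.NPHard
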